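import Pool.Agent.N516.SC.Thr

set_option autoImplicit false

namespace Pool.Agent.N516.SC

open Finset

/-- the properties of the boundary labels of a copy -/
def Dat {K : Type} [DecidableEq K] (X0 X1 Y0 Y1 : Finset K) : Prop :=
    (1 ≤ X0.card ∧ X0.card ≤ 2) ∧ (1 ≤ X1.card ∧ X1.card ≤ 2) ∧
    (1 ≤ Y0.card ∧ Y0.card ≤ 2) ∧ (1 ≤ Y1.card ∧ Y1.card ≤ 2) ∧
    symmDiff X0 X1 = symmDiff Y0 Y1 ∧
    ((symmDiff X0 X1).card ≤ X0.card + X1.card ∧ (symmDiff X0 X1).card ≤ Y0.card + Y1.card ∧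
      ((symmDiff X0 X1).card + (X0.card + X1.card)) % 2 = 0 ∧
      ((symmDiff X0 X1).card + (Y0.card + Y1.card)) % 2 = 0) ∧
    ¬ (X0.card + X1.card + (symmDiff X0 X1).card = 4 ∧ 1 ≤ (symmDiff X0 X1).card ∧
      Y0.card + Y1.card + (symmDiff X0 X1).card = 4)

theorem tri_card {K : Type} [DecidableEq K] {A B C : Finset K} (h : Tri A B C) :
    A.card + B.card + C.card = 4 ∧ 1 ≤ A.card ∧ 1 ≤ B.card ∧ 1 ≤ C.card :=
  ⟨h.2.2.2.2, h.2.1.card_pos, h.2.2.1.card_pos, h.2.2.2.1.card_pos⟩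

theorem le7 {a b c d e : ℕ} (h1 : b + d + e = 4) (h2 : 1 ≤ e) (h3 : a ≤ 2) (h4 : c ≤ 2) :
    a + b + (c + d) ≤ 7 := by omega

theorem fin7 {a b c d e : ℕ} (h : a + b + (c + d) = 7) (h1 : b + d + e = 4) (h2 : 1 ≤ e)
    (h3 : a ≤ 2) (h4 : c ≤ 2) : a = 2 ∧ c = 2 ∧ e = 1 := by omega

theorem sum2 {a b : ℕ} (h : 1 ≤ a ∧ a ≤ 2) (h' : 1 ≤ b ∧ b ≤ 2) : 2 ≤ a + b ∧ a + b ≤ 4 := by
  omega

theorem sum3 {a b c d e f g : ℕ} (h1 : a + b + c = 4) (h2 : d + e + f = 4)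
    (h3 : c + f + g = 4) : (a + d) + (b + e) = 4 + g := by omega

theorem hub4 {a b c : ℕ} (h : a + b + c = 4 ∧ 1 ≤ a ∧ 1 ≤ b ∧ 1 ≤ c) :
    c + a + b = 4 ∧ 1 ≤ c ∧ 1 ≤ a ∧ 1 ≤ b := by omega

theorem perm {u a b : ℕ} {P : Prop} (k : u ≤ a + b ∧ a ≤ b + u ∧ b ≤ a + u ∧ P) :
    u ≤ b + a ∧ b ≤ u + a ∧ a ≤ b + u := by
  obtain ⟨k1, k2, k3, -⟩ := k
  omega

theorem perm' {u a b : ℕ} {P : Prop} (k : u ≤ a + b ∧ a ≤ b + u ∧ b ≤ a + u ∧ P) :
    u ≤ a + b ∧ a ≤ u + b ∧ b ≤ a + u := by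
  obtain ⟨k1, k2, k3, -⟩ := k
  omega

theorem abs3 {K : Type} [DecidableEq K]
    (X00 X01 X10 X11 X20 X21 Y00 Y01 Y10 Y11 Y20 Y21 A10 A11 A20 A21 B0 U0 U1 U2 : Finset K)
    (t10 : Tri X20 Y00 A10) (t11 : Tri X21 Y01 A11) (t20 : Tri X00 Y10 A20)
    (t21 : Tri X01 Y11 A21) (tb : Tri X11 Y21 B0) (c1 : Tri A10 A11 U1) (c2 : Tri A20 A21 U2)
    (h : Tri U1 U2 U0) (d0 : Dat X00 X01 Y00 Y01) (d1 : Dat X10 X11 Y10 Y11)
    (d2 : Dat X20 X21 Y20 Y21) :
    X10.card = 2 ∧ Y20.card = 2 ∧ B0.card = 1 ∧ U0.card = 1 := by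
  obtain ⟨d0a, d0b, d0c, d0d, e0, p0, i0⟩ := d0
  obtain ⟨d1a, d1b, d1c, d1d, e1, p1, i1⟩ := d1
  obtain ⟨d2a, d2b, d2c, d2d, e2, p2, i2⟩ := d2
  have hU1 : U1 = symmDiff (symmDiff X20 X21) (symmDiff X00 X01) := by
    rw [← c1.1, ← t10.1, ← t11.1, symmDiff_symmDiff_symmDiff_comm, e0]
  have hU2 : U2 = symmDiff (symmDiff X00 X01) (symmDiff X10 X11) := by
    rw [← c2.1, ← t20.1, ← t21.1, symmDiff_symmDiff_symmDiff_comm, e1]
  have hU0 : U0 = symmDiff (symmDiff X20 X21) (symmDiff X10 X11) := by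
    rw [← h.1, hU1, hU2, symmDiff_assoc, symmDiff_symmDiff_cancel_left]
  have k1 := card_symmDiff' (symmDiff X20 X21) (symmDiff X00 X01)
  have k2 := card_symmDiff' (symmDiff X00 X01) (symmDiff X10 X11)
  have k0 := card_symmDiff' (symmDiff X20 X21) (symmDiff X10 X11)
  rw [← hU1] at k1
  rw [← hU2] at k2
  rw [← hU0] at k0
  have m10 := (tri_card t10).1
  have m11 := (tri_card t11).1
  have m20 := (tri_card t20).1
  have m21 := (tri_card t21).1
  have mb := tri_card tb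
  have mc1 := (tri_card c1).1
  have mc2 := (tri_card c2).1
  have mh := tri_card h
  have key := core' (X00.card + X01.card) (X10.card + X11.card) (X20.card + X21.card)
    (Y00.card + Y01.card) (Y10.card + Y11.card) (Y20.card + Y21.card)
    (symmDiff X00 X01).card (symmDiff X10 X11).card (symmDiff X20 X21).card
    U0.card U1.card U2.card
    (le7 mb.1 mb.2.2.2 d1a.2 d2c.2) (sum2 d0a d0b) (sum2 d1a d1b) (sum2 d2a d2b)
    (sum2 d0c d0d) (sum2 d1c d1d) (sum2 d2c d2d)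
    (sum3 m10 m11 mc1) (sum3 m20 m21 mc2) (hub4 mh)
    p0 p1 p2 (perm k0) (perm k1) (perm' k2)
    i0 i1 i2
  obtain ⟨q1, q2, q3⟩ := fin7 key.1 mb.1 mb.2.2.2 d1a.2 d2c.2
  exact ⟨q1, q2, q3, key.2⟩

/-- the strong form: if the copies satisfy `Three`, the centre is not tight -/
theorem abs4 {K : Type} [DecidableEq K]
    (X00 X01 X20 X21 Y00 Y01 Y10 Y11 A10 A11 A20 A21 U0 U1 U2 : Finset K)
    (t10 : Tri X20 Y00 A10) (t11 : Tri X21 Y01 A11) (t20 : Tri X00 Y10 A20)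
    (t21 : Tri X01 Y11 A21) (c1 : Tri A10 A11 U1) (c2 : Tri A20 A21 U2)
    (h : Tri U1 U2 U0) (a1 : X00.card = 2) (a2 : X01.card = 2) (a3 : X20.card = 2)
    (a4 : X21.card = 2) (b1 : Y00.card = 1) (b2 : Y01.card = 1) (b3 : Y10.card = 1)
    (b4 : Y11.card = 1) : False := by
  have m10 := tri_card t10
  have m11 := tri_card t11
  have m20 := tri_card t20
  have m21 := tri_card t21
  have mc1 := tri_card c1
  have mc2 := tri_card c2
  have mh := tri_card h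
  omega

section main
variable (D : Fin 3 → Pointed)

theorem three_nx (hc : ∀ i, IsCubic (D i).G) (hN : ∀ i, NT (D i).G) : Three (nx D) := by
  intro K _ L hL ht
  change ∀ v w : W D, L v w = L w v at hL
  change ∀ v : W D, v ≠ ar D 0 0 → v ≠ ce D 0 → TightAt (glue D) L v at ht
  have cd := copy_data D L hc hN hL ht
  have d0 := cd 0 2 1 (by decide) (by decide)
  have d1 := cd 1 0 2 (by decide) (by decide)
  have d2 := cd 2 1 0 (by decide) (by decide)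
  have t10 := tri_ar D L 1 2 0 0 (by decide) (by decide) (ht _ (by simp) (by simp))
  have t11 := tri_ar D L 1 2 0 1 (by decide) (by decide) (ht _ (by simp) (by simp))
  have t20 := tri_ar D L 2 0 1 0 (by decide) (by decide) (ht _ (by simp) (by simp))
  have t21 := tri_ar D L 2 0 1 1 (by decide) (by decide) (ht _ (by simp) (by simp))
  have tb := tri_ar D L 0 1 2 1 (by decide) (by decide) (ht _ (by simp) (by simp))
  have c1 := tri_ce D L 1 (ht _ (by simp) (by simp))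
  have c2 := tri_ce D L 2 (ht _ (by simp) (by simp))
  have h := tri_hu D L (ht _ (by simp) (by simp))
  rw [hL (ce D 1) (ar D 1 0), hL (ce D 1) (ar D 1 1), hL (ce D 1) (hu D)] at c1
  rw [hL (ce D 2) (ar D 2 0), hL (ce D 2) (ar D 2 1), hL (ce D 2) (hu D)] at c2
  obtain ⟨r1, r2, r3, r4⟩ := abs3 _ _ _ _ _ _ _ _ _ _ _ _ _ _ _ _ _ _ _ _
    t10 t11 t20 t21 tb c1 c2 h d0 d1 d2
  constructor
  · intro t
    fin_cases t
    · exact r1
    · exact r2
  · intro t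
    fin_cases t
    · change (L (ce D 0) (ar D 0 1)).card = 1
      rw [hL]; exact r3
    · change (L (ce D 0) (hu D)).card = 1
      rw [hL]; exact r4

theorem nt_glue (hc : ∀ i, IsCubic (D i).G) (hN : ∀ i, NT (D i).G) : NT (glue D) := by
  intro K _ L hL
  by_contra hcon
  push Not at hcon
  have h3 := (three_nx D hc hN K L hL (fun v _ _ => hcon v)).1
  have e0 : (L (ar D 0 0) (px D 1 0)).card = 2 := h3 0
  have e1 : (L (ar D 0 0) (qx D 2 0)).card = 2 := h3 1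
  have m := tri_card (tri_ar D L 0 1 2 0 (by decide) (by decide) (hcon _))
  omega

theorem bad_one (h3 : ∀ i, Three (D i)) : Bad (nx D) 1 := by
  intro K _ L hL
  change ∀ v w : W D, L v w = L w v at hL
  rw [Nat.one_le_iff_ne_zero]
  intro h0
  rw [Set.ncard_eq_zero (Set.toFinite _)] at h0
  have ht : ∀ v : W D, v ≠ ar D 0 0 → v ≠ ce D 0 → TightAt (glue D) L v := by
    intro v h1 h2
    by_contra h
    have : v ∈ {v : (nx D).V | v ≠ (nx D).x ∧ v ≠ (nx D).y ∧ ¬ TightAt (nx D).G L v} :=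
      ⟨h1, h2, h⟩
    rw [h0] at this
    exact this
  have cd : ∀ i, (∀ t, (L (ar D (i - 1) t) (px D i t)).card = 2) ∧
      (∀ t, (L (ar D (i + 1) t) (qx D i t)).card = 1) := by
    intro i
    have := h3 i K (res D L i) (res_symm D L hL i)
      (fun v hx hy => res_tight D L i v hx hy (ht _ (by simp) (by simp)))
    refine ⟨fun t => ?_, fun t => ?_⟩
    · have e := res_x D L i t
      have e' := this.1 t
      rw [e] at e'
      exact e'
    · have e := res_y D L i t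
      have e' := this.2 t
      rw [e] at e'
      exact e'
  have t10 := tri_ar D L 1 2 0 0 (by decide) (by decide) (ht _ (by simp) (by simp))
  have t11 := tri_ar D L 1 2 0 1 (by decide) (by decide) (ht _ (by simp) (by simp))
  have t20 := tri_ar D L 2 0 1 0 (by decide) (by decide) (ht _ (by simp) (by simp))
  have t21 := tri_ar D L 2 0 1 1 (by decide) (by decide) (ht _ (by simp) (by simp))
  have c1 := tri_ce D L 1 (ht _ (by simp) (by simp))
  have c2 := tri_ce D L 2 (ht _ (by simp) (by simp))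
  have h := tri_hu D L (ht _ (by simp) (by simp))
  rw [hL (ce D 1) (ar D 1 0), hL (ce D 1) (ar D 1 1), hL (ce D 1) (hu D)] at c1
  rw [hL (ce D 2) (ar D 2 0), hL (ce D 2) (ar D 2 1), hL (ce D 2) (hu D)] at c2
  exact abs4 _ _ _ _ _ _ _ _ _ _ _ _ _ _ _ t10 t11 t20 t21 c1 c2 h
    ((cd 0).1 0) ((cd 0).1 1) ((cd 2).1 0) ((cd 2).1 1)
    ((cd 0).2 0) ((cd 0).2 1) ((cd 1).2 0) ((cd 1).2 1)

/-- the set of the non-tight inner vertices of copy `i` -/
def bs {K : Type} [DecidableEq K] (L : W D → W D → Finset K) (i : Fin 3) : Set (D i).V :=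
  {v | v ≠ (D i).x ∧ v ≠ (D i).y ∧ ¬ TightAt (D i).G (res D L i) v}

/-- the embedding of the vertices of the copies, junk on `x` and `y` -/
def emb (i : Fin 3) (v : (D i).V) : W D :=
  if h : v ≠ (D i).x ∧ v ≠ (D i).y then .inl ⟨i, ⟨v, h.1, h.2⟩⟩ else hu D

theorem bad_nx (n : ℕ) (h : ∀ i, Bad (D i) n) {K : Type} [DecidableEq K]
    (L : W D → W D → Finset K) (hL : ∀ v w, L v w = L w v) (T : Set (W D))
    (hT : ∀ i (v : Inner (D i)), ¬ TightAt (glue D) L (.inl ⟨i, v⟩) → Sum.inl ⟨i, v⟩ ∈ T) :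
    3 * n ≤ T.ncard := by
  classical
  have hn : ∀ i, n ≤ (bs D L i).ncard := fun i => h i K (res D L i) (res_symm D L hL i)
  have himg : ∀ i, (emb D i '' bs D L i).ncard = (bs D L i).ncard := by
    intro i
    apply Set.InjOn.ncard_image
    intro v hv w hw hvw
    unfold emb at hvw
    rw [dif_pos ⟨hv.1, hv.2.1⟩, dif_pos ⟨hw.1, hw.2.1⟩] at hvw
    simpa using hvw
  have hsub : ∀ i, emb D i '' bs D L i ⊆ T := by
    rintro i _ ⟨v, hv, rfl⟩
    unfold emb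
    rw [dif_pos ⟨hv.1, hv.2.1⟩]
    exact hT i ⟨v, hv.1, hv.2.1⟩ fun ht => hv.2.2 (res_tight D L i v hv.1 hv.2.1 ht)
  have hdis : ∀ i j, i ≠ j → Disjoint (emb D i '' bs D L i) (emb D j '' bs D L j) := by
    intro i j hij
    rw [Set.disjoint_left]
    rintro _ ⟨v, hv, rfl⟩ ⟨w, hw, hvw⟩
    unfold emb at hvw
    rw [dif_pos ⟨hw.1, hw.2.1⟩, dif_pos ⟨hv.1, hv.2.1⟩] at hvw
    have e1 := congrArg Sigma.fst (Sum.inl.inj hvw)
    exact hij e1.symm
  have hU : (emb D 0 '' bs D L 0 ∪ (emb D 1 '' bs D L 1 ∪ emb D 2 '' bs D L 2)) ⊆ T :=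
    Set.union_subset (hsub 0) (Set.union_subset (hsub 1) (hsub 2))
  have hle := Set.ncard_le_ncard hU (Set.toFinite _)
  rw [Set.ncard_union_eq (Set.disjoint_union_right.2 ⟨hdis 0 1 (by decide), hdis 0 2 (by decide)⟩)
    (Set.toFinite _) (Set.toFinite _), Set.ncard_union_eq (hdis 1 2 (by decide))
    (Set.toFinite _) (Set.toFinite _), himg, himg, himg] at hle
  have h0 := hn 0
  have h1 := hn 1
  have h2 := hn 2
  omega

theorem bad_step (n : ℕ) (h : ∀ i, Bad (D i) n) : Bad (nx D) (3 * n) := by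
  intro K _ L hL
  refine bad_nx D n h L hL _ ?_
  intro i v hv
  exact ⟨by change Sum.inl _ ≠ ar D 0 0; simp, by change Sum.inl _ ≠ ce D 0; simp, hv⟩

end main

end Pool.Agent.N516.SC
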