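import Pool.Agent.N516.SC.Stm

/-!
# `glue D` has no 4-cycles (`MP_dce662_co`)
-/

set_option autoImplicit false

namespace Pool.Agent.N516.SC.C4c

open Pool.Agent.N516.SC hiding Pointed


namespace C4

theorem two : ∀ t t' : Fin 2, ¬ t = t' → (t = 0 ∧ t' = 1) ∨ (t = 1 ∧ t' = 0) := by decide

theorem thr : ∀ i : Fin 3, i + 1 ≠ i - 1 := by decide

theorem px_inj (D : Fin 3 → Pool.Agent.N516.SC.Pointed) (j j' : Fin 3) (t t' : Fin 2) (h : px D j t = px D j' t') :
    j = j' ∧ t = t' := by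
  unfold px at h
  have h1 := Sum.inl.inj h
  rw [Sigma.mk.injEq] at h1
  obtain ⟨h2, h3⟩ := h1
  subst h2
  refine ⟨rfl, ?_⟩
  have h4 := congrArg Subtype.val (eq_of_heq h3)
  simp only at h4
  have hp := (D j).p_ne
  by_contra hne
  have : (t = 0 ∧ t' = 1) ∨ (t = 1 ∧ t' = 0) := two t t' hne
  rcases this with ⟨rfl, rfl⟩ | ⟨rfl, rfl⟩
  · exact hp h4
  · exact hp h4.symm

theorem qx_inj (D : Fin 3 → Pool.Agent.N516.SC.Pointed) (j j' : Fin 3) (t t' : Fin 2) (h : qx D j t = qx D j' t') :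
    j = j' ∧ t = t' := by
  unfold qx at h
  have h1 := Sum.inl.inj h
  rw [Sigma.mk.injEq] at h1
  obtain ⟨h2, h3⟩ := h1
  subst h2
  refine ⟨rfl, ?_⟩
  have h4 := congrArg Subtype.val (eq_of_heq h3)
  simp only at h4
  have hp := (D j).q_ne
  by_contra hne
  have : (t = 0 ∧ t' = 1) ∨ (t = 1 ∧ t' = 0) := two t t' hne
  rcases this with ⟨rfl, rfl⟩ | ⟨rfl, rfl⟩
  · exact hp h4
  · exact hp h4.symm

theorem px_qx (D : Fin 3 → Pool.Agent.N516.SC.Pointed) (j j' : Fin 3) (t t' : Fin 2) (h : px D j t = qx D j' t') :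
    j = j' := by
  unfold px qx at h
  have h1 := Sum.inl.inj h
  rw [Sigma.mk.injEq] at h1
  exact h1.1

/-- a 4-cycle -/
def C {V : Type} (G : SimpleGraph V) (a b c d : V) : Prop :=
  a ≠ c ∧ b ≠ d ∧ G.Adj a b ∧ G.Adj b c ∧ G.Adj c d ∧ G.Adj d a

theorem C.rot {V : Type} {G : SimpleGraph V} {a b c d : V} (h : C G a b c d) : C G b c d a :=
  ⟨h.2.1, h.1.symm, h.2.2.2.1, h.2.2.2.2.1, h.2.2.2.2.2, h.2.2.1⟩

theorem noHu (hN : S_NB) (D : Fin 3 → Pool.Agent.N516.SC.Pointed) (b c d : W D) : ¬ C (glue D) (hu D) b c d := by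
  obtain ⟨h0, h1, -, -, -⟩ := hN D
  rintro ⟨hac, hbd, hab, hbc, hcd, hda⟩
  have hb : ∃ i, b = ce D i := by
    rcases (h0 b).1 hab with h | h | h <;> exact ⟨_, h⟩
  have hd : ∃ i, d = ce D i := by
    rcases (h0 d).1 hda.symm with h | h | h <;> exact ⟨_, h⟩
  obtain ⟨i, rfl⟩ := hb
  obtain ⟨j, rfl⟩ := hd
  have e1 := (h1 i c).1 hbc
  have e2 := (h1 j c).1 hcd.symm
  rcases e1 with rfl | rfl | rfl
  · exact hac rfl
  all_goals
    rcases e2 with e2 | e2 | e2 <;> simp_all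

theorem noCe (hN : S_NB) (D : Fin 3 → Pool.Agent.N516.SC.Pointed) (i : Fin 3) (b c d : W D) :
    ¬ C (glue D) (ce D i) b c d := by
  intro hC
  have hb : b ≠ hu D := by
    rintro rfl
    exact noHu hN D _ _ _ hC.rot
  have hd : d ≠ hu D := by
    rintro rfl
    exact noHu hN D _ _ _ hC.rot.rot.rot
  obtain ⟨h0, h1, h2, -, -⟩ := hN D
  obtain ⟨hac, hbd, hab, hbc, hcd, hda⟩ := hC
  have eb := (h1 i b).1 hab
  have ed := (h1 i d).1 hda.symm
  have hb' : ∃ t, b = ar D i t := by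
    rcases eb with h | h | h
    · exact absurd h hb
    · exact ⟨_, h⟩
    · exact ⟨_, h⟩
  have hd' : ∃ t, d = ar D i t := by
    rcases ed with h | h | h
    · exact absurd h hd
    · exact ⟨_, h⟩
    · exact ⟨_, h⟩
  obtain ⟨t, rfl⟩ := hb'
  obtain ⟨s, rfl⟩ := hd'
  have hts : t ≠ s := by rintro rfl; exact hbd rfl
  have hi : i + 1 ≠ i - 1 := thr i
  rcases (h2 i t c).1 hbc with rfl | rfl | rfl
  · exact hac rfl
  · rcases (h2 i s _).1 hcd.symm with h | h | h
    · simp [px] at h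
    · exact hts (px_inj D _ _ _ _ h).2
    · exact hi (px_qx D _ _ _ _ h)
  · rcases (h2 i s _).1 hcd.symm with h | h | h
    · simp [qx] at h
    · exact hi (px_qx D _ _ _ _ h.symm)
    · exact hts (qx_inj D _ _ _ _ h).2

theorem noAr (hN : S_NB) (D : Fin 3 → Pool.Agent.N516.SC.Pointed) (i : Fin 3) (t : Fin 2) (b c d : W D) :
    ¬ C (glue D) (ar D i t) b c d := by
  intro hC
  have hb : ∀ j, b ≠ ce D j := by
    rintro j rfl
    exact noCe hN D _ _ _ _ hC.rot
  have hc : ∀ j, c ≠ ce D j := by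
    rintro j rfl
    exact noCe hN D _ _ _ _ hC.rot.rot
  have hd : ∀ j, d ≠ ce D j := by
    rintro j rfl
    exact noCe hN D _ _ _ _ hC.rot.rot.rot
  have hc' : c ≠ hu D := by
    rintro rfl
    exact noHu hN D _ _ _ hC.rot.rot
  obtain ⟨h0, h1, h2, h3, h4⟩ := hN D
  obtain ⟨hac, hbd, hab, hbc, hcd, hda⟩ := hC
  -- the symmetric core
  have core : ∀ b d : W D, b = px D (i + 1) t → d = qx D (i - 1) t → (glue D).Adj b c →
      (glue D).Adj c d → False := by
    rintro b d rfl rfl hbc hcd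
    have hi : i + 1 ≠ i - 1 := thr i
    rcases c with ⟨k, v⟩ | (_ | ⟨j, _ | s⟩)
    · by_cases hk : k = i + 1
      · subst hk
        exact h4 _ _ _ _ hi hcd
      · exact h4 _ _ _ _ (Ne.symm hk) hbc
    · exact hc' rfl
    · exact hc j rfl
    · rcases (h2 j s _).1 hbc.symm with h | h | h
      · simp [px] at h
      · obtain ⟨e1, e2⟩ := px_inj D _ _ _ _ h
        have e3 : i = j := add_right_cancel e1
        subst e3 e2
        exact hac rfl
      · have e1 := px_qx D _ _ _ _ h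
        rcases (h2 j s _).1 hcd with h' | h' | h'
        · simp [qx] at h'
        · have e2 := px_qx D _ _ _ _ h'.symm
          clear * - e1 e2
          revert i j; decide
        · obtain ⟨e2, e3⟩ := qx_inj D _ _ _ _ h'
          clear * - e1 e2
          revert i j; decide
  rcases (h2 i t b).1 hab with h | h | h
  · exact hb _ h
  · rcases (h2 i t d).1 hda.symm with h' | h' | h'
    · exact hd _ h'
    · exact hbd (h.trans h'.symm)
    · exact core b d h h' hbc hcd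
  · rcases (h2 i t d).1 hda.symm with h' | h' | h'
    · exact hd _ h'
    · exact core d b h' h hcd.symm hbc.symm
    · exact hbd (h.trans h'.symm)

theorem noInr (hN : S_NB) (D : Fin 3 → Pool.Agent.N516.SC.Pointed) (x : Ctr) (b c d : W D) :
    ¬ C (glue D) (.inr x) b c d := by
  rcases x with _ | ⟨i, _ | t⟩
  · exact noHu hN D b c d
  · exact noCe hN D i b c d
  · exact noAr hN D i t b c d

end C4

theorem t_C4 (h : S_NB) : S_C4 := by
  intro D _ hc4 a b c d hac hbd hab hbc hcd hda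
  have hC : C4.C (glue D) a b c d := ⟨hac, hbd, hab, hbc, hcd, hda⟩
  rcases a with ⟨i, a⟩ | a
  swap
  · exact C4.noInr h D a _ _ _ hC
  rcases b with ⟨j, b⟩ | b
  swap
  · exact C4.noInr h D b _ _ _ hC.rot
  rcases c with ⟨k, c⟩ | c
  swap
  · exact C4.noInr h D c _ _ _ hC.rot.rot
  rcases d with ⟨l, d⟩ | d
  swap
  · exact C4.noInr h D d _ _ _ hC.rot.rot.rot
  obtain ⟨-, -, -, h3, h4⟩ := h D
  have hij : i = j := by
    by_contra hne
    exact h4 _ _ _ _ hne hab
  subst hij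
  have hik : i = k := by
    by_contra hne
    exact h4 _ _ _ _ hne hbc
  subst hik
  have hil : i = l := by
    by_contra hne
    exact h4 _ _ _ _ hne hcd
  subst hil
  refine hc4 i a.1 b.1 c.1 d.1 ?_ ?_ ((h3 _ _ _).1 hab) ((h3 _ _ _).1 hbc) ((h3 _ _ _).1 hcd)
    ((h3 _ _ _).1 hda)
  · intro e
    apply hac
    rw [Subtype.ext e]
  · intro e
    apply hbd
    rw [Subtype.ext e]

end Pool.Agent.N516.SC.C4c
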