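import Mathlib

set_option autoImplicit false

namespace Pool.Agent.N516.SC

def chk : Bool :=
  [1,2].all fun u1 => [1,2].all fun u2 => !(decide (u1 + u2 < 4)) ||
  [2,3,4].all fun α2 => [2,3,4].all fun β0 => !(decide (α2 + β0 = 4 + u1)) ||
  [2,3,4].all fun α0 => [2,3,4].all fun β1 => !(decide (α0 + β1 = 4 + u2)) ||
  [0,1,2,3,4].all fun s0 => !(decide (s0 ≤ α0 ∧ s0 ≤ β0 ∧ (s0 + α0) % 2 = 0 ∧ (s0 + β0) % 2 = 0 ∧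
    ¬ (α0 + s0 = 4 ∧ 1 ≤ s0 ∧ β0 + s0 = 4))) ||
  [0,1,2,3,4].all fun s1 => !(decide (s1 ≤ β1 ∧ (s1 + β1) % 2 = 0 ∧ u2 ≤ s0 + s1 ∧ s0 ≤ u2 + s1 ∧
    s1 ≤ s0 + u2)) ||
  [0,1,2,3,4].all fun s2 => !(decide (s2 ≤ α2 ∧ (s2 + α2) % 2 = 0 ∧ u1 ≤ s0 + s2 ∧ s0 ≤ u1 + s2 ∧
    s2 ≤ s0 + u1 ∧
    4 - u1 - u2 ≤ s1 + s2 ∧ s1 ≤ (4 - u1 - u2) + s2 ∧ s2 ≤ s1 + (4 - u1 - u2))) ||
  [2,3,4].all fun α1 => !(decide (s1 ≤ α1 ∧ (s1 + α1) % 2 = 0 ∧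
    ¬ (α1 + s1 = 4 ∧ 1 ≤ s1 ∧ β1 + s1 = 4))) ||
  [2,3,4].all fun β2 => !(decide (s2 ≤ β2 ∧ (s2 + β2) % 2 = 0 ∧
    ¬ (α2 + s2 = 4 ∧ 1 ≤ s2 ∧ β2 + s2 = 4) ∧
    α1 + β2 < 8)) || decide (α1 + β2 = 7 ∧ u1 + u2 = 3)

theorem chk_true : chk = true := by decide +kernel

theorem mem_five {s : ℕ} (h : s ≤ 4) : s ∈ [0,1,2,3,4] := by
  simp only [List.mem_cons, List.not_mem_nil, or_false]; omega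

theorem mem_three {s : ℕ} (h : 2 ≤ s ∧ s ≤ 4) : s ∈ [2,3,4] := by
  simp only [List.mem_cons, List.not_mem_nil, or_false]; omega

theorem mem_two {s : ℕ} (h : 1 ≤ s ∧ s ≤ 2) : s ∈ [1,2] := by
  simp only [List.mem_cons, List.not_mem_nil, or_false]; omega

theorem core' (α0 α1 α2 β0 β1 β2 s0 s1 s2 u0 u1 u2 : ℕ)
    (h7 : α1 + β2 ≤ 7)
    (hα0 : 2 ≤ α0 ∧ α0 ≤ 4) (hα1 : 2 ≤ α1 ∧ α1 ≤ 4) (hα2 : 2 ≤ α2 ∧ α2 ≤ 4)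
    (hβ0 : 2 ≤ β0 ∧ β0 ≤ 4) (hβ1 : 2 ≤ β1 ∧ β1 ≤ 4) (hβ2 : 2 ≤ β2 ∧ β2 ≤ 4)
    (n1 : α2 + β0 = 4 + u1) (n2 : α0 + β1 = 4 + u2)
    (n7 : u0 + u1 + u2 = 4 ∧ 1 ≤ u0 ∧ 1 ≤ u1 ∧ 1 ≤ u2)
    (p0 : s0 ≤ α0 ∧ s0 ≤ β0 ∧ (s0 + α0) % 2 = 0 ∧ (s0 + β0) % 2 = 0)
    (p1 : s1 ≤ α1 ∧ s1 ≤ β1 ∧ (s1 + α1) % 2 = 0 ∧ (s1 + β1) % 2 = 0)
    (p2 : s2 ≤ α2 ∧ s2 ≤ β2 ∧ (s2 + α2) % 2 = 0 ∧ (s2 + β2) % 2 = 0)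
    (r0 : u0 ≤ s1 + s2 ∧ s1 ≤ u0 + s2 ∧ s2 ≤ s1 + u0)
    (r1 : u1 ≤ s0 + s2 ∧ s0 ≤ u1 + s2 ∧ s2 ≤ s0 + u1)
    (r2 : u2 ≤ s0 + s1 ∧ s0 ≤ u2 + s1 ∧ s1 ≤ s0 + u2)
    (i0 : ¬ (α0 + s0 = 4 ∧ 1 ≤ s0 ∧ β0 + s0 = 4))
    (i1 : ¬ (α1 + s1 = 4 ∧ 1 ≤ s1 ∧ β1 + s1 = 4))
    (i2 : ¬ (α2 + s2 = 4 ∧ 1 ≤ s2 ∧ β2 + s2 = 4)) :
    α1 + β2 = 7 ∧ u0 = 1 := by
  have hu0 : 4 - u1 - u2 = u0 := by clear i0 i1 i2 r0 r1 r2 p0 p1 p2; omega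
  have b1 : 1 ≤ u1 ∧ u1 ≤ 2 := by clear i0 i1 i2 r0 r1 r2 p0 p1 p2; omega
  have b2 : 1 ≤ u2 ∧ u2 ≤ 2 := by clear i0 i1 i2 r0 r1 r2 p0 p1 p2; omega
  have b3 : u1 + u2 < 4 := by clear i0 i1 i2 r0 r1 r2 p0 p1 p2; omega
  have b4 : α1 + β2 < 8 := Nat.lt_succ_of_le h7
  have c0 : s0 ≤ 4 := p0.1.trans hα0.2
  have c1 : s1 ≤ 4 := p1.1.trans hα1.2
  have c2 : s2 ≤ 4 := p2.1.trans hα2.2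
  have key : ∀ {a b : Bool}, (!a || b) = true → a = true → b = true := by decide
  have h := chk_true
  unfold chk at h
  have a1 := key (List.all_eq_true.1 (List.all_eq_true.1 h u1 (mem_two b1)) u2 (mem_two b2))
    (decide_eq_true b3)
  have a2 := key (List.all_eq_true.1 (List.all_eq_true.1 a1 α2 (mem_three hα2)) β0
    (mem_three hβ0)) (decide_eq_true n1)
  have a3 := key (List.all_eq_true.1 (List.all_eq_true.1 a2 α0 (mem_three hα0)) β1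
    (mem_three hβ1)) (decide_eq_true n2)
  have a4 := key (List.all_eq_true.1 a3 s0 (mem_five c0))
    (decide_eq_true ⟨p0.1, p0.2.1, p0.2.2.1, p0.2.2.2, i0⟩)
  have a5 := key (List.all_eq_true.1 a4 s1 (mem_five c1))
    (decide_eq_true ⟨p1.2.1, p1.2.2.2, r2.1, r2.2.1, r2.2.2⟩)
  have a6 := key (List.all_eq_true.1 a5 s2 (mem_five c2))
    (decide_eq_true ⟨p2.1, p2.2.2.1, r1.1, r1.2.1, r1.2.2, by rw [hu0]; exact r0.1,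
      by rw [hu0]; exact r0.2.1, by rw [hu0]; exact r0.2.2⟩)
  have a7 := key (List.all_eq_true.1 a6 α1 (mem_three hα1))
    (decide_eq_true ⟨p1.1, p1.2.2.1, i1⟩)
  have a8 := of_decide_eq_true (key (List.all_eq_true.1 a7 β2 (mem_three hβ2))
    (decide_eq_true ⟨p2.2.1, p2.2.2.2, i2, b4⟩))
  refine ⟨a8.1, ?_⟩
  have := a8.2
  clear i0 i1 i2 r0 r1 r2 p0 p1 p2
  omega

end Pool.Agent.N516.SC
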