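import Mathlib

/-!
# Definitions for `MP_dce662_co` (excess of shortest cycle covers in a family of snarks)
-/

set_option autoImplicit false

namespace Pool.Agent.N516.SC

/-- every vertex has exactly three neighbours -/
def IsCubic {V : Type} (G : SimpleGraph V) : Prop := ∀ v, (G.neighborSet v).ncard = 3

/-- a perfect matching: a set of edges such that every vertex is in exactly one of them -/
def IsPM {V : Type} (G : SimpleGraph V) (M : Set (Sym2 V)) : Prop :=
  M ⊆ G.edgeSet ∧ ∀ v, ∃! e, e ∈ M ∧ v ∈ e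

/-- the edges of `G` are covered by `k` perfect matchings -/
def HasPMCover {V : Type} (G : SimpleGraph V) (k : ℕ) : Prop :=
  ∃ M : Fin k → Set (Sym2 V), (∀ i, IsPM G (M i)) ∧ ∀ e ∈ G.edgeSet, ∃ i, e ∈ M i

/-- the excessive index of `G` is at least five: the edges are not covered by at most four perfect
matchings -/
def IndexAtLeastFive {V : Type} (G : SimpleGraph V) : Prop := ∀ k ≤ 4, ¬ HasPMCover G k

/-- `G` has a proper edge colouring with three colours -/
def EdgeColourable3 {V : Type} (G : SimpleGraph V) : Prop :=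
  ∃ c : Sym2 V → Fin 3, ∀ e ∈ G.edgeSet, ∀ f ∈ G.edgeSet, e ≠ f → (∃ v, v ∈ e ∧ v ∈ f) → c e ≠ c f

/-- all circuits of `G` have length at least five -/
def GirthAtLeastFive {V : Type} (G : SimpleGraph V) : Prop :=
  ∀ (v : V) (w : G.Walk v v), w.IsCycle → 5 ≤ w.length

/-- at least four edges join `S` and its complement if both contain a circuit -/
def CyclicallyFour {V : Type} (G : SimpleGraph V) : Prop :=
  ∀ S : Set V, (∃ (v : V) (w : G.Walk v v), w.IsCycle ∧ ∀ a ∈ w.support, a ∈ S) →
    (∃ (v : V) (w : G.Walk v v), w.IsCycle ∧ ∀ a ∈ w.support, a ∉ S) →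
      4 ≤ {e : V × V | e.1 ∈ S ∧ e.2 ∉ S ∧ G.Adj e.1 e.2}.ncard

/-- a snark: a cubic graph that is not 3-edge-colourable, has girth at least 5 and is cyclically
4-edge-connected -/
def IsSnark {V : Type} (G : SimpleGraph V) : Prop :=
  IsCubic G ∧ ¬ EdgeColourable3 G ∧ GirthAtLeastFive G ∧ CyclicallyFour G

/-- a finite graph with a chosen edge `xy`, a labelling `p 0, p 1` of the other neighbours of `x` and a
labelling `q 0, q 1` of the other neighbours of `y` -/
structure Pointed where
  V : Type
  [ft : Fintype V]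
  [de : DecidableEq V]
  G : SimpleGraph V
  x : V
  y : V
  p : Fin 2 → V
  q : Fin 2 → V
  adj_x : ∀ w, G.Adj x w ↔ w = y ∨ w = p 0 ∨ w = p 1
  adj_y : ∀ w, G.Adj y w ↔ w = x ∨ w = q 0 ∨ w = q 1
  p_ne : p 0 ≠ p 1
  q_ne : q 0 ≠ q 1
  p_ne_y : ∀ t, p t ≠ y
  q_ne_x : ∀ t, q t ≠ x

attribute [instance] Pointed.ft Pointed.de

/-- the vertices other than `x` and `y` -/
abbrev Inner (R : Pointed) : Type := {v : R.V // v ≠ R.x ∧ v ≠ R.y}

/-- the ten new vertices: `none` is `u`, `some (i, none)` is `c_i`, `some (i, some 0)` is `a_i` and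
`some (i, some 1)` is `b_i` -/
abbrev Ctr : Type := Option (Fin 3 × Option (Fin 2))

/-- the vertex set of the constructed graph -/
abbrev W (D : Fin 3 → Pointed) : Type := (Σ i, Inner (D i)) ⊕ Ctr

/-- the edges of the constructed graph (each in one direction) -/
inductive Rel (D : Fin 3 → Pointed) : W D → W D → Prop
  | inner (i : Fin 3) (v w : Inner (D i)) (h : (D i).G.Adj v.1 w.1) :
      Rel D (.inl ⟨i, v⟩) (.inl ⟨i, w⟩)
  | toX (i j : Fin 3) (t : Fin 2) (v : Inner (D j)) (hj : j = i + 1) (h : v.1 = (D j).p t) :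
      Rel D (.inr (some (i, some t))) (.inl ⟨j, v⟩)
  | toY (i j : Fin 3) (t : Fin 2) (v : Inner (D j)) (hj : j = i - 1) (h : v.1 = (D j).q t) :
      Rel D (.inr (some (i, some t))) (.inl ⟨j, v⟩)
  | arm (i : Fin 3) (t : Fin 2) : Rel D (.inr (some (i, none))) (.inr (some (i, some t)))
  | hub (i : Fin 3) : Rel D (.inr (some (i, none))) (.inr none)

/-- the graph constructed from `D 0`, `D 1`, `D 2` -/
def glue (D : Fin 3 → Pointed) : SimpleGraph (W D) := SimpleGraph.fromRel (Rel D)

/-- `D` is admissible: the three graphs are snarks of excessive index at least 5 -/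
def Admissible (D : Fin 3 → Pointed) : Prop := ∀ i, IsSnark (D i).G ∧ IndexAtLeastFive (D i).G

/-- a cycle: a connected subgraph in which every vertex has even degree -/
def IsCyc {V : Type} {G : SimpleGraph V} (C : G.Subgraph) : Prop :=
  C.Connected ∧ ∀ v, Even (C.neighborSet v).ncard

/-- a cycle cover: a finite family of cycles that together contain every edge -/
def IsCover {V : Type} {G : SimpleGraph V} {m : ℕ} (C : Fin m → G.Subgraph) : Prop :=
  (∀ i, IsCyc (C i)) ∧ ∀ e ∈ G.edgeSet, ∃ i, e ∈ (C i).edgeSet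

/-- the length of a family of subgraphs -/
noncomputable def length {V : Type} {G : SimpleGraph V} {m : ℕ} (C : Fin m → G.Subgraph) : ℕ :=
  ∑ i, (C i).edgeSet.ncard

/-- the minimum length of a cycle cover of `G` (`⊤` if there is none) -/
noncomputable def scc {V : Type} (G : SimpleGraph V) : ℕ∞ :=
  ⨅ (m : ℕ) (C : Fin m → G.Subgraph) (_ : IsCover C), (length C : ℕ∞)

/-! ### Auxiliary notions -/

/-- three labels of the form `{a}`, `{b}`, `{a, b}` (in any order), `a ≠ b` -/
def Tri {K : Type} [DecidableEq K] (A B C : Finset K) : Prop :=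
  symmDiff A B = C ∧ A.Nonempty ∧ B.Nonempty ∧ C.Nonempty ∧ A.card + B.card + C.card = 4

/-- the labelling `L` of the edges is tight at `v` -/
def TightAt {K : Type} [DecidableEq K] {V : Type} (G : SimpleGraph V) (L : V → V → Finset K)
    (v : V) : Prop :=
  ∀ a b c, a ≠ b → a ≠ c → b ≠ c → G.Adj v a → G.Adj v b → G.Adj v c → Tri (L v a) (L v b) (L v c)

/-- `G` has no tight labelling -/
def NT {V : Type} (G : SimpleGraph V) : Prop :=
  ∀ (K : Type) [DecidableEq K] (L : V → V → Finset K), (∀ v w, L v w = L w v) →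
    ∃ v, ¬ TightAt G L v

/-- no triangles -/
def NoC3 {V : Type} (G : SimpleGraph V) : Prop := ∀ a b c, G.Adj a b → G.Adj b c → ¬ G.Adj a c

/-- no 4-cycles: two different vertices have at most one common neighbour -/
def NoC4 {V : Type} (G : SimpleGraph V) : Prop :=
  ∀ a b c d, a ≠ c → b ≠ d → G.Adj a b → G.Adj b c → G.Adj c d → ¬ G.Adj d a

open Classical in
/-- number of edges from the vertices with value `true` to those with value `false` -/
noncomputable def cut {V : Type} [Fintype V] (G : SimpleGraph V) (f : V → Bool) : ℕ :=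
  ∑ v, ∑ w, if f v = true ∧ f w = false ∧ G.Adj v w then 1 else 0

/-- every cut with at least two vertices on both sides has at least four edges -/
def Cut4 {V : Type} [Fintype V] (G : SimpleGraph V) : Prop :=
  ∀ f : V → Bool, (∃ a b, a ≠ b ∧ f a = true ∧ f b = true) →
    (∃ a b, a ≠ b ∧ f a = false ∧ f b = false) → 4 ≤ cut G f

/-- the structural part of the induction -/
structure Nice {V : Type} [Fintype V] (G : SimpleGraph V) : Prop where
  cubic : IsCubic G
  c3 : NoC3 G
  c4 : NoC4 G
  cut4 : Cut4 G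

/-- at least `n` inner vertices of `R` are not tight, for every labelling -/
def Bad (R : Pointed) (n : ℕ) : Prop :=
  ∀ (K : Type) [DecidableEq K] (L : R.V → R.V → Finset K), (∀ v w, L v w = L w v) →
    n ≤ {v : R.V | v ≠ R.x ∧ v ≠ R.y ∧ ¬ TightAt R.G L v}.ncard

/-- if all inner vertices are tight, then the other edges at `x` have labels with two elements and
the other edges at `y` have labels with one element -/
def Three (R : Pointed) : Prop :=
  ∀ (K : Type) [DecidableEq K] (L : R.V → R.V → Finset K), (∀ v w, L v w = L w v) →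
    (∀ v, v ≠ R.x → v ≠ R.y → TightAt R.G L v) →
      (∀ t, (L R.x (R.p t)).card = 2) ∧ (∀ t, (L R.y (R.q t)).card = 1)

end Pool.Agent.N516.SC
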