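import Pool.Agent.N516.SC.Stm

set_option autoImplicit false

namespace Pool.Agent.N516.SC

open Finset

section Tri
variable {K : Type} [DecidableEq K]

theorem Tri.swap {A B C : Finset K} (h : Tri A B C) : Tri B A C := by
  obtain ⟨h1, h2, h3, h4, h5⟩ := h
  exact ⟨by rw [symmDiff_comm]; exact h1, h3, h2, h4, by omega⟩

theorem Tri.rot {A B C : Finset K} (h : Tri A B C) : Tri B C A := by
  obtain ⟨h1, h2, h3, h4, h5⟩ := h
  refine ⟨?_, h3, h4, h2, by omega⟩
  rw [← h1, symmDiff_comm A B, symmDiff_symmDiff_cancel_left]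

theorem Tri.mem {A B C : Finset K} (h : Tri A B C) (k : K) :
    k ∈ C ↔ ((k ∈ A ∧ k ∉ B) ∨ (k ∈ B ∧ k ∉ A)) := by
  rw [← h.1, mem_symmDiff]

theorem Tri.perms {A B C : Finset K} (h : Tri A B C) :
    Tri A B C ∧ Tri A C B ∧ Tri B A C ∧ Tri B C A ∧ Tri C A B ∧ Tri C B A :=
  ⟨h, h.rot.rot.swap, h.swap, h.rot, h.rot.rot, h.rot.swap⟩

/-- triangle inequalities and parity for the sizes of symmetric differences -/
theorem card_symmDiff' (A B : Finset K) :
    (symmDiff A B).card ≤ A.card + B.card ∧ A.card ≤ B.card + (symmDiff A B).card ∧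
      B.card ≤ A.card + (symmDiff A B).card ∧ ((symmDiff A B).card + (A.card + B.card)) % 2 = 0 := by
  have h1 : (symmDiff A B).card = (A \ B).card + (B \ A).card := by
    rw [symmDiff_def, sup_eq_union, card_union_of_disjoint]
    exact disjoint_sdiff_sdiff
  have h2 : (A \ B).card + (A ∩ B).card = A.card := card_sdiff_add_card_inter A B
  have h3 : (B \ A).card + (A ∩ B).card = B.card := by
    rw [inter_comm]; exact card_sdiff_add_card_inter B A
  omega

end Tri

/-- the three neighbours of a vertex of a cubic graph -/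
theorem three_nbrs {V : Type} {G : SimpleGraph V} (h : IsCubic G) (v : V) :
    ∃ a b c, a ≠ b ∧ a ≠ c ∧ b ≠ c ∧ ∀ w, G.Adj v w ↔ w = a ∨ w = b ∨ w = c := by
  obtain ⟨a, b, c, hab, hac, hbc, hs⟩ := Set.ncard_eq_three.1 (h v)
  refine ⟨a, b, c, hab, hac, hbc, fun w => ?_⟩
  rw [← SimpleGraph.mem_neighborSet, hs]
  simp

open Classical in
/-- the boundary sums at `x` and at `y` agree -/
theorem sigma_eq (R : Pointed) (hc : IsCubic R.G) {K : Type} [DecidableEq K]
    (L : R.V → R.V → Finset K) (hL : ∀ v w, L v w = L w v)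
    (ht : ∀ v, v ≠ R.x → v ≠ R.y → TightAt R.G L v) :
    symmDiff (L R.x (R.p 0)) (L R.x (R.p 1)) = symmDiff (L R.y (R.q 0)) (L R.y (R.q 1)) := by
  ext k
  let J : SimpleGraph R.V :=
    { Adj := fun v w => R.G.Adj v w ∧ k ∈ L v w ∧ ¬ (v = R.x ∧ w = R.y) ∧ ¬ (v = R.y ∧ w = R.x)
      symm := ⟨fun v w h => ⟨h.1.symm, by rw [hL]; exact h.2.1, fun h' => h.2.2.2 ⟨h'.2, h'.1⟩,
        fun h' => h.2.2.1 ⟨h'.2, h'.1⟩⟩⟩
      loopless := ⟨fun v h => h.1.ne rfl⟩ }
  have hxy : R.x ≠ R.y := by
    have : R.G.Adj R.x R.y := (R.adj_x _).2 (Or.inl rfl)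
    exact this.ne
  -- degrees of the inner vertices are even
  have hin : ∀ v, v ≠ R.x → v ≠ R.y → Even (J.degree v) := by
    intro v hvx hvy
    obtain ⟨a, b, c, hab, hac, hbc, hn⟩ := three_nbrs hc v
    have htri := ht v hvx hvy a b c hab hac hbc ((hn a).2 (by simp)) ((hn b).2 (by simp))
      ((hn c).2 (by simp))
    have hs : J.neighborFinset v = ({a, b, c} : Finset R.V).filter (fun w => k ∈ L v w) := by
      ext w
      simp only [SimpleGraph.mem_neighborFinset, mem_filter, mem_insert, mem_singleton]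
      constructor
      · intro h; exact ⟨(hn w).1 h.1, h.2.1⟩
      · intro h
        exact ⟨(hn w).2 h.1, h.2, fun h' => hvx h'.1, fun h' => hvy h'.1⟩
    rw [← SimpleGraph.card_neighborFinset_eq_degree, hs]
    have hm := htri.mem k
    rw [filter_insert, filter_insert, filter_singleton]
    by_cases h1 : k ∈ L v a <;> by_cases h2 : k ∈ L v b <;> by_cases h3 : k ∈ L v c <;>
      simp only [h1, h2, h3, if_true, if_false, not_true_eq_false, not_false_eq_true, and_true,
        and_false, or_true, or_false, and_self, true_iff, false_iff] at hm ⊢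
    all_goals first
      | (rw [card_pair hab]; exact even_two)
      | (rw [card_pair hac]; exact even_two)
      | (rw [card_pair hbc]; exact even_two)
      | (rw [card_insert_of_notMem (by simp [hab]), card_insert_of_notMem (by simp), card_empty]
         exact even_two)
      | simp
  have hodd := J.even_card_odd_degree_vertices
  -- degrees of x and y
  have dx : Odd (J.degree R.x) ↔ k ∈ symmDiff (L R.x (R.p 0)) (L R.x (R.p 1)) := by
    have hs : J.neighborFinset R.x = ({R.p 0, R.p 1} : Finset R.V).filter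
        (fun w => k ∈ L R.x w) := by
      ext w
      simp only [SimpleGraph.mem_neighborFinset, mem_filter, mem_insert, mem_singleton]
      constructor
      · intro h
        refine ⟨?_, h.2.1⟩
        rcases (R.adj_x w).1 h.1 with h' | h' | h'
        · exact absurd ⟨rfl, h'⟩ h.2.2.1
        · exact Or.inl h'
        · exact Or.inr h'
      · intro h
        refine ⟨(R.adj_x w).2 (Or.inr h.1), h.2, fun h' => ?_, fun h' => hxy h'.1⟩
        rcases h.1 with h1 | h1
        · exact R.p_ne_y 0 (h1 ▸ h'.2)
        · exact R.p_ne_y 1 (h1 ▸ h'.2)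
    rw [← SimpleGraph.card_neighborFinset_eq_degree, hs, mem_symmDiff, filter_insert,
      filter_singleton]
    by_cases h1 : k ∈ L R.x (R.p 0) <;> by_cases h2 : k ∈ L R.x (R.p 1) <;>
      simp [h1, h2, R.p_ne]
  have dy : Odd (J.degree R.y) ↔ k ∈ symmDiff (L R.y (R.q 0)) (L R.y (R.q 1)) := by
    have hs : J.neighborFinset R.y = ({R.q 0, R.q 1} : Finset R.V).filter
        (fun w => k ∈ L R.y w) := by
      ext w
      simp only [SimpleGraph.mem_neighborFinset, mem_filter, mem_insert, mem_singleton]
      constructor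
      · intro h
        refine ⟨?_, h.2.1⟩
        rcases (R.adj_y w).1 h.1 with h' | h' | h'
        · exact absurd ⟨rfl, h'⟩ h.2.2.2
        · exact Or.inl h'
        · exact Or.inr h'
      · intro h
        refine ⟨(R.adj_y w).2 (Or.inr h.1), h.2, fun h' => hxy h'.1.symm, fun h' => ?_⟩
        rcases h.1 with h1 | h1
        · exact R.q_ne_x 0 (h1 ▸ h'.2)
        · exact R.q_ne_x 1 (h1 ▸ h'.2)
    rw [← SimpleGraph.card_neighborFinset_eq_degree, hs, mem_symmDiff, filter_insert,
      filter_singleton]
    by_cases h1 : k ∈ L R.y (R.q 0) <;> by_cases h2 : k ∈ L R.y (R.q 1) <;>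
      simp [h1, h2, R.q_ne]
  rw [← dx, ← dy]
  have hsub : (univ.filter fun v => Odd (J.degree v)) =
      ({R.x, R.y} : Finset R.V).filter fun v => Odd (J.degree v) := by
    ext v
    simp only [mem_filter, mem_univ, true_and, mem_insert, mem_singleton]
    constructor
    · intro h
      refine ⟨?_, h⟩
      by_contra hne
      push Not at hne
      exact (Nat.not_odd_iff_even.2 (hin v hne.1 hne.2)) h
    · exact fun h => h.2
  have hodd' : Even (({R.x, R.y} : Finset R.V).filter fun v => Odd (J.degree v)).card := by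
    rw [← hsub]; convert hodd
  rw [filter_insert, filter_singleton] at hodd'
  by_cases h1 : Odd (J.degree R.x)
  · by_cases h2 : Odd (J.degree R.y)
    · exact iff_of_true h1 h2
    · rw [if_pos h1, if_neg h2] at hodd'
      exact absurd hodd' (by simp)
  · by_cases h2 : Odd (J.degree R.y)
    · rw [if_neg h1, if_pos h2] at hodd'
      exact absurd hodd' (by simp)
    · exact iff_of_false h1 h2

/-- if `R.G` has no tight labelling, then not both pairs of boundary labels can be completed -/
theorem inc (R : Pointed) (hN : NT R.G) {K : Type} [DecidableEq K]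
    (L : R.V → R.V → Finset K) (hL : ∀ v w, L v w = L w v)
    (ht : ∀ v, v ≠ R.x → v ≠ R.y → TightAt R.G L v) (S : Finset K) :
    ¬ (Tri (L R.x (R.p 0)) (L R.x (R.p 1)) S ∧ Tri (L R.y (R.q 0)) (L R.y (R.q 1)) S) := by
  classical
  rintro ⟨h1, h2⟩
  have hxy : R.x ≠ R.y := by
    have : R.G.Adj R.x R.y := (R.adj_x _).2 (Or.inl rfl)
    exact this.ne
  let M : R.V → R.V → Finset K := fun v w =>
    if (v = R.x ∧ w = R.y) ∨ (v = R.y ∧ w = R.x) then S else L v w
  obtain ⟨v, hv⟩ := hN K M (by
    intro v w
    simp only [M]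
    by_cases h : (v = R.x ∧ w = R.y) ∨ (v = R.y ∧ w = R.x)
    · rw [if_pos h, if_pos (by tauto)]
    · rw [if_neg h, if_neg (by tauto), hL])
  apply hv
  intro a b c hab hac hbc ha hb hc'
  by_cases hvx : v = R.x
  · subst hvx
    have hp0 : M R.x (R.p 0) = L R.x (R.p 0) := by
      simp only [M]; rw [if_neg]; rintro (h | h)
      · exact R.p_ne_y 0 h.2
      · exact hxy h.1
    have hp1 : M R.x (R.p 1) = L R.x (R.p 1) := by
      simp only [M]; rw [if_neg]; rintro (h | h)
      · exact R.p_ne_y 1 h.2
      · exact hxy h.1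
    have hy : M R.x R.y = S := by simp [M]
    obtain ⟨t1, t2, t3, t4, t5, t6⟩ := h1.perms
    rw [R.adj_x] at ha hb hc'
    rcases ha with rfl | rfl | rfl <;> rcases hb with rfl | rfl | rfl <;>
      rcases hc' with rfl | rfl | rfl <;> first
      | exact absurd rfl hab
      | exact absurd rfl hac
      | exact absurd rfl hbc
      | (rw [hp0, hp1, hy]; assumption)
  · by_cases hvy : v = R.y
    · subst hvy
      have hp0 : M R.y (R.q 0) = L R.y (R.q 0) := by
        simp only [M]; rw [if_neg]; rintro (h | h)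
        · exact hxy h.1.symm
        · exact R.q_ne_x 0 h.2
      have hp1 : M R.y (R.q 1) = L R.y (R.q 1) := by
        simp only [M]; rw [if_neg]; rintro (h | h)
        · exact hxy h.1.symm
        · exact R.q_ne_x 1 h.2
      have hy : M R.y R.x = S := by simp [M]
      obtain ⟨t1, t2, t3, t4, t5, t6⟩ := h2.perms
      rw [R.adj_y] at ha hb hc'
      rcases ha with rfl | rfl | rfl <;> rcases hb with rfl | rfl | rfl <;>
        rcases hc' with rfl | rfl | rfl <;> first
        | exact absurd rfl hab
        | exact absurd rfl hac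
        | exact absurd rfl hbc
        | (rw [hp0, hp1, hy]; assumption)
    · have hM : ∀ w, M v w = L v w := by
        intro w
        simp only [M]; rw [if_neg]; rintro (h | h)
        · exact hvx h.1
        · exact hvy h.1
      rw [hM, hM, hM]
      exact ht v hvx hvy a b c hab hac hbc ha hb hc'

end Pool.Agent.N516.SC
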