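import Pool.Agent.N516.SC.Abs
import Pool.Agent.N340.SC.PT
import Pool.Agent.N433.SC.C3
import Pool.Agent.N558.SC.GIR
import Pool.Agent.N562.SC.IND
import Pool.Agent.N707.SC.COV
import Pool.Agent.N712.SC.EC
import Pool.Agent.N516.SC.C4c
import Pool.Agent.N971.SC.PN
import Pool.Agent.N72.SC.CUT
import Pool.Agent.N377.SC.FIN

set_option autoImplicit false

namespace Pool.Agent.N516.SC

open Finset

/-- the Petersen graph with the root edge `01` -/
def petP : Pointed where
  V := Fin 10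
  G := pet
  x := 0
  y := 1
  p := ![4, 5]
  q := ![2, 6]
  adj_x := by
    intro w
    rw [Pool.Agent.N971.SC.PN.adj_iff]
    revert w
    decide +kernel
  adj_y := by
    intro w
    rw [Pool.Agent.N971.SC.PN.adj_iff]
    revert w
    decide +kernel
  p_ne := by decide
  q_ne := by decide
  p_ne_y := by decide
  q_ne_x := by decide

/-- the recursively constructed graphs -/
def rc : ℕ → Pointed
  | 0 => petP
  | k + 1 => nx fun _ => rc k

theorem nice_glue (D : Fin 3 → Pointed) (h : ∀ i, Nice (D i).G) : Nice (glue D) :=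
  ⟨Pool.Agent.N565.SC.t_CUB Pool.Agent.N3.SC.t_NB D (fun i => (h i).cubic) (fun i => (h i).c3),
    Pool.Agent.N433.SC.t_C3 Pool.Agent.N3.SC.t_NB D (fun i => (h i).c3) (fun i => (h i).c4),
    Pool.Agent.N516.SC.C4c.t_C4 Pool.Agent.N3.SC.t_NB D (fun i => (h i).c3) (fun i => (h i).c4),
    Pool.Agent.N72.SC.t_CUT Pool.Agent.N3.SC.t_NB D h⟩

theorem rc_nice (k : ℕ) : Nice (rc k).G ∧ NT (rc k).G := by
  induction k with
  | zero => exact ⟨Pool.Agent.N971.SC.PN.t_PN, Pool.Agent.N340.SC.PT.t_PT⟩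
  | succ k ih =>
    exact ⟨nice_glue (fun _ => rc k) (fun _ => ih.1),
      nt_glue (fun _ => rc k) (fun _ => ih.1.cubic) (fun _ => ih.2)⟩

theorem rc_three (k : ℕ) : Three (rc (k + 1)) :=
  three_nx (fun _ => rc k) (fun _ => (rc_nice k).1.cubic) (fun _ => (rc_nice k).2)

theorem rc_bad (k : ℕ) : Bad (rc (k + 2)) (3 ^ k) := by
  induction k with
  | zero => exact bad_one (fun _ => rc 1) (fun _ => rc_three 0)
  | succ k ih =>
    rw [pow_succ, mul_comm]
    exact bad_step (fun _ => rc (k + 2)) (3 ^ k) (fun _ => ih)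

theorem card_inner (R : Pointed) : Fintype.card (Inner R) + 2 = Fintype.card R.V := by
  have h := Fintype.card_subtype_compl (fun v : R.V => v = R.x ∨ v = R.y)
  have h2 : Fintype.card {v : R.V // v = R.x ∨ v = R.y} = 2 := by
    rw [Fintype.card_subtype]
    have : (univ.filter fun v : R.V => v = R.x ∨ v = R.y) = {R.x, R.y} := by
      ext v; simp
    rw [this, card_pair (x_ne_y R)]
  have h3 : Fintype.card (Inner R) = Fintype.card {v : R.V // ¬ (v = R.x ∨ v = R.y)} := by
    apply Fintype.card_congr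
    exact Equiv.subtypeEquivRight fun v => by push Not; rfl
  have h4 : 2 ≤ Fintype.card R.V := by
    rw [← h2]; exact Fintype.card_subtype_le _
  omega

theorem card_glue (D : Fin 3 → Pointed) (n : ℕ) (h : ∀ i, Fintype.card (D i).V + 2 = n) :
    Fintype.card (W D) + 2 = 3 * n := by
  have h1 : ∀ i, Fintype.card (Inner (D i)) + 4 = n := by
    intro i
    have := card_inner (D i)
    have := h i
    omega
  have h0 := h1 0
  have h2 := h1 1
  have h3 := h1 2
  rw [Fintype.card_sum, Fintype.card_sigma, Fin.sum_univ_three]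
  have : Fintype.card Ctr = 10 := by decide
  rw [this]
  omega

theorem rc_card (k : ℕ) : Fintype.card (rc k).V + 2 = 12 * 3 ^ k := by
  induction k with
  | zero => rfl
  | succ k ih =>
    have := card_glue (fun _ => rc k) _ (fun _ => ih)
    rw [pow_succ]
    change Fintype.card (W fun _ => rc k) + 2 = _
    omega

/-- the lower bound on the length of a cycle cover -/
theorem main_bound (k : ℕ) (m : ℕ) (C : Fin m → (glue fun _ => rc (k + 1)).Subgraph)
    (hC : IsCover C) :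
    4 * (glue fun _ => rc (k + 1)).edgeSet.ncard + 3 * 3 ^ k ≤ 3 * length C := by
  obtain ⟨L, hL, hle⟩ := Pool.Agent.N707.SC.t_COV _ _ (rc_nice (k + 2)).1.cubic m C hC
  have hE := Pool.Agent.N712.SC.t_EC _ _ (rc_nice (k + 2)).1.cubic
  have hb := rc_bad k (Fin m) L hL
  have hsub : {v : (rc (k + 2)).V | v ≠ (rc (k + 2)).x ∧ v ≠ (rc (k + 2)).y ∧
      ¬ TightAt (rc (k + 2)).G L v} ⊆ {v | ¬ TightAt (rc (k + 2)).G L v} := fun v hv => hv.2.2
  have hle2 := Set.ncard_le_ncard hsub (Set.toFinite _)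
  have e1 : 3 ^ k ≤ {v | ¬ TightAt (rc (k + 2)).G L v}.ncard := hb.trans hle2
  have e2 : 2 * Fintype.card (rc (k + 2)).V + {v | ¬ TightAt (rc (k + 2)).G L v}.ncard ≤
      length C := hle
  have e3 : 2 * (glue fun _ => rc (k + 1)).edgeSet.ncard = 3 * Fintype.card (rc (k + 2)).V := hE
  omega

theorem rc_snark (k : ℕ) : IsSnark (rc k).G ∧ IndexAtLeastFive (rc k).G := by
  obtain ⟨h1, h2⟩ := rc_nice k
  obtain ⟨g1, g2⟩ := Pool.Agent.N558.SC.t_GIR _ _ h1
  haveI : Nonempty (rc k).V := ⟨(rc k).x⟩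
  obtain ⟨i1, i2⟩ := Pool.Agent.N562.SC.t_IND _ _ h1.cubic h2
  exact ⟨⟨h1.cubic, i2, g1, g2⟩, i1⟩

theorem scc_bound (k : ℕ) :
    ((4 * (glue fun _ => rc (k + 1)).edgeSet.ncard + 3 * 3 ^ k : ℕ) : ℕ∞) ≤
      3 * scc (glue fun _ => rc (k + 1)) := by
  obtain ⟨m0, C0, h0⟩ := Pool.Agent.N377.SC.t_FIN _ _ (rc_nice (k + 2)).1
  by_cases htop : scc (glue fun _ => rc (k + 1)) = ⊤
  · rw [htop]; simp
  obtain ⟨n, hn⟩ := ENat.ne_top_iff_exists.1 htop
  rw [← hn]
  have : ∃ (m : ℕ) (C : Fin m → (glue fun _ => rc (k + 1)).Subgraph), IsCover C ∧ length C ≤ n := by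
    by_contra hcon
    push Not at hcon
    have : ((n + 1 : ℕ) : ℕ∞) ≤ scc (glue fun _ => rc (k + 1)) := by
      unfold scc
      refine le_iInf fun m => le_iInf fun C => le_iInf fun hC => ?_
      exact_mod_cast hcon m C hC
    rw [← hn] at this
    have : n + 1 ≤ n := by exact_mod_cast this
    omega
  obtain ⟨m, C, hC, hle⟩ := this
  have := main_bound k m C hC
  have h2 : 4 * (glue fun _ => rc (k + 1)).edgeSet.ncard + 3 * 3 ^ k ≤ 3 * n := by omega
  exact_mod_cast h2

theorem scc_fin (D : Fin 3 → Pointed) (h : Nice (glue D)) : scc (glue D) ≠ ⊤ := by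
  obtain ⟨m0, C0, h0⟩ := Pool.Agent.N377.SC.t_FIN _ _ h
  intro htop
  have : scc (glue D) ≤ (length C0 : ℕ∞) := by
    unfold scc
    exact iInf_le_of_le m0 (iInf_le_of_le C0 (iInf_le_of_le h0 le_rfl))
  rw [htop] at this
  exact absurd this (by simp)

end Pool.Agent.N516.SC
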