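import Pool.Agent.N516.SC.Lab
import Pool.Agent.N3.SC.NB

set_option autoImplicit false

namespace Pool.Agent.N516.SC

open Finset

theorem f3a : ∀ i : Fin 3, i - 1 + 1 = i := by decide
theorem f3b : ∀ i : Fin 3, i + 1 - 1 = i := by decide
theorem f3c : ∀ i : Fin 3, i - 1 ≠ i + 1 := by decide

theorem nb_hu (D : Fin 3 → Pointed) (w) :
    (glue D).Adj (hu D) w ↔ w = ce D 0 ∨ w = ce D 1 ∨ w = ce D 2 := (Pool.Agent.N3.SC.t_NB D).1 w

theorem nb_ce (D : Fin 3 → Pointed) (i w) :
    (glue D).Adj (ce D i) w ↔ w = hu D ∨ w = ar D i 0 ∨ w = ar D i 1 :=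
  (Pool.Agent.N3.SC.t_NB D).2.1 i w

theorem nb_ar (D : Fin 3 → Pointed) (i t w) :
    (glue D).Adj (ar D i t) w ↔ w = ce D i ∨ w = px D (i + 1) t ∨ w = qx D (i - 1) t :=
  (Pool.Agent.N3.SC.t_NB D).2.2.1 i t w

theorem nb_in (D : Fin 3 → Pointed) (i : Fin 3) (v w : Inner (D i)) :
    (glue D).Adj (.inl ⟨i, v⟩) (.inl ⟨i, w⟩) ↔ (D i).G.Adj v.1 w.1 :=
  (Pool.Agent.N3.SC.t_NB D).2.2.2.1 i v w

/-- the vertex of `glue D` that plays the role of the vertex `v` of `D i`, seen from `w` -/
def up (D : Fin 3 → Pointed) (i : Fin 3) (v w : (D i).V) : W D :=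
  if hx : v = (D i).x then ar D (i - 1) (if w = (D i).p 0 then 0 else 1)
  else if hy : v = (D i).y then ar D (i + 1) (if w = (D i).q 0 then 0 else 1)
  else .inl ⟨i, ⟨v, hx, hy⟩⟩

theorem x_ne_y (R : Pointed) : R.x ≠ R.y := by
  have : R.G.Adj R.x R.y := (R.adj_x _).2 (Or.inl rfl)
  exact this.ne

theorem p_ne_x (R : Pointed) (t : Fin 2) : R.p t ≠ R.x := by
  have : R.G.Adj R.x (R.p t) := by rw [R.adj_x]; fin_cases t <;> simp
  exact this.ne.symm

theorem q_ne_y (R : Pointed) (t : Fin 2) : R.q t ≠ R.y := by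
  have : R.G.Adj R.y (R.q t) := by rw [R.adj_y]; fin_cases t <;> simp
  exact this.ne.symm

theorem up_x (D : Fin 3 → Pointed) (i : Fin 3) (t : Fin 2) :
    up D i (D i).x ((D i).p t) = ar D (i - 1) t := by
  unfold up
  rw [dif_pos rfl]
  have := (D i).p_ne
  fin_cases t <;> simp [this.symm]

theorem up_y (D : Fin 3 → Pointed) (i : Fin 3) (t : Fin 2) :
    up D i (D i).y ((D i).q t) = ar D (i + 1) t := by
  unfold up
  rw [dif_neg (x_ne_y _).symm, dif_pos rfl]
  have := (D i).q_ne
  fin_cases t <;> simp [this.symm]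

theorem up_in (D : Fin 3 → Pointed) (i : Fin 3) (v w : (D i).V) (hx : v ≠ (D i).x)
    (hy : v ≠ (D i).y) : up D i v w = .inl ⟨i, ⟨v, hx, hy⟩⟩ := by
  unfold up
  rw [dif_neg hx, dif_neg hy]

theorem up_adj (D : Fin 3 → Pointed) (i : Fin 3) (v a : (D i).V) (hx : v ≠ (D i).x)
    (hy : v ≠ (D i).y) (h : (D i).G.Adj v a) :
    (glue D).Adj (.inl ⟨i, ⟨v, hx, hy⟩⟩) (up D i a v) := by
  by_cases hax : a = (D i).x
  · subst hax
    have hv := ((D i).adj_x v).1 h.symm
    rcases hv with hv | hv | hv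
    · exact absurd hv hy
    · subst hv
      rw [up_x]
      refine ((nb_ar D _ _ _).2 (Or.inr (Or.inl ?_))).symm
      have : i - 1 + 1 = i := f3a i
      simp only [px]
      rw [this]
    · subst hv
      rw [up_x]
      refine ((nb_ar D _ _ _).2 (Or.inr (Or.inl ?_))).symm
      have : i - 1 + 1 = i := f3a i
      simp only [px]
      rw [this]
  · by_cases hay : a = (D i).y
    · subst hay
      have hv := ((D i).adj_y v).1 h.symm
      rcases hv with hv | hv | hv
      · exact absurd hv hx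
      · subst hv
        rw [up_y]
        refine ((nb_ar D _ _ _).2 (Or.inr (Or.inr ?_))).symm
        have : i + 1 - 1 = i := f3b i
        simp only [qx]
        rw [this]
      · subst hv
        rw [up_y]
        refine ((nb_ar D _ _ _).2 (Or.inr (Or.inr ?_))).symm
        have : i + 1 - 1 = i := f3b i
        simp only [qx]
        rw [this]
    · rw [up_in D i a v hax hay, nb_in]
      exact h

theorem up_inj (D : Fin 3 → Pointed) (i : Fin 3) (v a b : (D i).V) (h : up D i a v = up D i b v) :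
    a = b := by
  have h3 : i - 1 ≠ i + 1 := f3c i
  unfold up at h
  split_ifs at h <;> simp_all

/-- the restriction of a labelling to the copy `i` -/
def res (D : Fin 3 → Pointed) {K : Type} (L : W D → W D → Finset K) (i : Fin 3)
    (v w : (D i).V) : Finset K := L (up D i v w) (up D i w v)

theorem res_symm (D : Fin 3 → Pointed) {K : Type} (L : W D → W D → Finset K)
    (hL : ∀ v w, L v w = L w v) (i : Fin 3) (v w : (D i).V) : res D L i v w = res D L i w v :=
  hL _ _

theorem res_x (D : Fin 3 → Pointed) {K : Type} (L : W D → W D → Finset K) (i : Fin 3)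
    (t : Fin 2) : res D L i (D i).x ((D i).p t) = L (ar D (i - 1) t) (px D i t) := by
  unfold res
  rw [up_x, up_in D i _ _ (p_ne_x _ _) ((D i).p_ne_y t)]
  rfl

theorem res_y (D : Fin 3 → Pointed) {K : Type} (L : W D → W D → Finset K) (i : Fin 3)
    (t : Fin 2) : res D L i (D i).y ((D i).q t) = L (ar D (i + 1) t) (qx D i t) := by
  unfold res
  rw [up_y, up_in D i _ _ ((D i).q_ne_x t) (q_ne_y _ _)]
  rfl

theorem res_tight (D : Fin 3 → Pointed) {K : Type} [DecidableEq K] (L : W D → W D → Finset K)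
    (i : Fin 3) (v : (D i).V) (hx : v ≠ (D i).x) (hy : v ≠ (D i).y)
    (h : TightAt (glue D) L (.inl ⟨i, ⟨v, hx, hy⟩⟩)) : TightAt (D i).G (res D L i) v := by
  intro a b c hab hac hbc ha hb hc
  unfold res
  rw [up_in D i v a hx hy, up_in D i v b hx hy, up_in D i v c hx hy]
  exact h _ _ _ (fun e => hab (up_inj D i v a b e)) (fun e => hac (up_inj D i v a c e))
    (fun e => hbc (up_inj D i v b c e)) (up_adj D i v a hx hy ha) (up_adj D i v b hx hy hb)
    (up_adj D i v c hx hy hc)

end Pool.Agent.N516.SC
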