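import Pool.Agent.N516.SC.Defs

/-!
# Statements of the parts (`MP_dce662_co`)
-/

set_option autoImplicit false

namespace Pool.Agent.N516.SC

/-- the copy in `glue D` of the neighbour `p t` of `x` in `D j` -/
def px (D : Fin 3 → Pointed) (j : Fin 3) (t : Fin 2) : W D :=
  .inl ⟨j, ⟨(D j).p t, by
    have h : (D j).G.Adj (D j).x ((D j).p t) := by
      rw [(D j).adj_x]; fin_cases t <;> simp
    exact h.ne.symm, (D j).p_ne_y t⟩⟩

/-- the copy in `glue D` of the neighbour `q t` of `y` in `D j` -/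
def qx (D : Fin 3 → Pointed) (j : Fin 3) (t : Fin 2) : W D :=
  .inl ⟨j, ⟨(D j).q t, (D j).q_ne_x t, by
    have h : (D j).G.Adj (D j).y ((D j).q t) := by
      rw [(D j).adj_y]; fin_cases t <;> simp
    exact h.ne.symm⟩⟩

/-- `a_i` (`t = 0`) and `b_i` (`t = 1`) -/
abbrev ar (D : Fin 3 → Pointed) (i : Fin 3) (t : Fin 2) : W D := .inr (some (i, some t))
/-- `c_i` -/
abbrev ce (D : Fin 3 → Pointed) (i : Fin 3) : W D := .inr (some (i, none))
/-- `u` -/
abbrev hu (D : Fin 3 → Pointed) : W D := .inr none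

/-- NB: the neighbours of the vertices of `glue D` -/
def S_NB : Prop := ∀ D : Fin 3 → Pointed,
  (∀ w, (glue D).Adj (hu D) w ↔ w = ce D 0 ∨ w = ce D 1 ∨ w = ce D 2) ∧
  (∀ i w, (glue D).Adj (ce D i) w ↔ w = hu D ∨ w = ar D i 0 ∨ w = ar D i 1) ∧
  (∀ i t w, (glue D).Adj (ar D i t) w ↔ w = ce D i ∨ w = px D (i + 1) t ∨ w = qx D (i - 1) t) ∧
  (∀ (i : Fin 3) (v w : Inner (D i)),
    (glue D).Adj (.inl ⟨i, v⟩) (.inl ⟨i, w⟩) ↔ (D i).G.Adj v.1 w.1) ∧
  (∀ (i j : Fin 3) (v : Inner (D i)) (w : Inner (D j)), i ≠ j →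
    ¬ (glue D).Adj (.inl ⟨i, v⟩) (.inl ⟨j, w⟩))

/-- CUB: `glue D` is cubic -/
def S_CUB : Prop := ∀ D : Fin 3 → Pointed, (∀ i, IsCubic (D i).G) → (∀ i, NoC3 (D i).G) →
  IsCubic (glue D)

/-- C3: `glue D` has no triangles -/
def S_C3 : Prop := ∀ D : Fin 3 → Pointed, (∀ i, NoC3 (D i).G) → (∀ i, NoC4 (D i).G) → NoC3 (glue D)

/-- C4: `glue D` has no 4-cycles -/
def S_C4 : Prop := ∀ D : Fin 3 → Pointed, (∀ i, NoC3 (D i).G) → (∀ i, NoC4 (D i).G) → NoC4 (glue D)

/-- CUT: `glue D` has no small cuts -/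
def S_CUT : Prop := ∀ D : Fin 3 → Pointed, (∀ i, Nice (D i).G) → Cut4 (glue D)

/-- GIR: girth and cyclic connectivity -/
def S_GIR : Prop := ∀ (V : Type) [Fintype V] (G : SimpleGraph V), Nice G →
  GirthAtLeastFive G ∧ CyclicallyFour G

/-- IND: no tight labelling implies excessive index at least five and no 3-edge-colouring -/
def S_IND : Prop := ∀ (V : Type) [Fintype V] [Nonempty V] (G : SimpleGraph V), IsCubic G → NT G →
  IndexAtLeastFive G ∧ ¬ EdgeColourable3 G

/-- the Petersen graph: outer cycle `0,…,4`, spokes `i, i + 5`, inner edges `5 + i, 5 + (i + 2)` -/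
def pet : SimpleGraph (Fin 10) := SimpleGraph.fromRel fun a b =>
  (a.val, b.val) ∈ [(0, 1), (1, 2), (2, 3), (3, 4), (0, 4), (0, 5), (1, 6), (2, 7), (3, 8), (4, 9),
    (5, 7), (7, 9), (6, 9), (6, 8), (5, 8)]

/-- PN: the Petersen graph is cubic, has no 3- and 4-cycles and no small cuts -/
def S_PN : Prop := Nice pet

/-- PT: the Petersen graph has no tight labelling -/
def S_PT : Prop := NT pet

/-- COV: the length of a cycle cover exceeds `2 |V|` at least by the number of vertices that are not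
tight in a suitable labelling -/
def S_COV : Prop := ∀ (V : Type) [Fintype V] (G : SimpleGraph V), IsCubic G →
  ∀ (m : ℕ) (C : Fin m → G.Subgraph), IsCover C →
    ∃ L : V → V → Finset (Fin m), (∀ v w, L v w = L w v) ∧
      2 * Fintype.card V + {v : V | ¬ TightAt G L v}.ncard ≤ length C

/-- EC: the number of edges of a cubic graph -/
def S_EC : Prop := ∀ (V : Type) [Fintype V] (G : SimpleGraph V), IsCubic G →
  2 * G.edgeSet.ncard = 3 * Fintype.card V

end Pool.Agent.N516.SC
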