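import Pool.Agent.N516.SC.Res
import Pool.Agent.N516.SC.Core
import Pool.Agent.N565.SC.CUB

set_option autoImplicit false

namespace Pool.Agent.N516.SC

open Finset

theorem label_bd {V K : Type} [DecidableEq K] {G : SimpleGraph V} (hc : IsCubic G)
    (L : V → V → Finset K) (v w : V) (h : TightAt G L v) (ha : G.Adj v w) :
    1 ≤ (L v w).card ∧ (L v w).card ≤ 2 := by
  obtain ⟨a, b, c, hab, hac, hbc, hn⟩ := three_nbrs hc v
  obtain ⟨-, h2, h3, h4, h5⟩ := h a b c hab hac hbc ((hn a).2 (by simp)) ((hn b).2 (by simp))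
    ((hn c).2 (by simp))
  have e2 := h2.card_pos
  have e3 := h3.card_pos
  have e4 := h4.card_pos
  rcases (hn w).1 ha with rfl | rfl | rfl <;> omega

/-- what is needed about a copy -/
theorem data (R : Pointed) (hc : IsCubic R.G) {K : Type} [DecidableEq K]
    (L : R.V → R.V → Finset K) (hL : ∀ v w, L v w = L w v)
    (ht : ∀ v, v ≠ R.x → v ≠ R.y → TightAt R.G L v) :
    (∀ t, 1 ≤ (L R.x (R.p t)).card ∧ (L R.x (R.p t)).card ≤ 2) ∧
    (∀ t, 1 ≤ (L R.y (R.q t)).card ∧ (L R.y (R.q t)).card ≤ 2) := by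
  constructor
  · intro t
    have : R.G.Adj R.x (R.p t) := by rw [R.adj_x]; fin_cases t <;> simp
    rw [hL]
    exact label_bd hc L _ _ (ht _ (p_ne_x R t) (R.p_ne_y t)) this.symm
  · intro t
    have : R.G.Adj R.y (R.q t) := by rw [R.adj_y]; fin_cases t <;> simp
    rw [hL]
    exact label_bd hc L _ _ (ht _ (R.q_ne_x t) (q_ne_y R t)) this.symm

/-- numerical form of the properties of the boundary labels of a copy -/
theorem data2 (R : Pointed) (hc : IsCubic R.G) (hN : NT R.G) {K : Type} [DecidableEq K]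
    (L : R.V → R.V → Finset K) (hL : ∀ v w, L v w = L w v)
    (ht : ∀ v, v ≠ R.x → v ≠ R.y → TightAt R.G L v) (X0 X1 Y0 Y1 : Finset K)
    (hX0 : L R.x (R.p 0) = X0) (hX1 : L R.x (R.p 1) = X1)
    (hY0 : L R.y (R.q 0) = Y0) (hY1 : L R.y (R.q 1) = Y1) :
    (1 ≤ X0.card ∧ X0.card ≤ 2) ∧ (1 ≤ X1.card ∧ X1.card ≤ 2) ∧
    (1 ≤ Y0.card ∧ Y0.card ≤ 2) ∧ (1 ≤ Y1.card ∧ Y1.card ≤ 2) ∧
    symmDiff X0 X1 = symmDiff Y0 Y1 ∧
    ((symmDiff X0 X1).card ≤ X0.card + X1.card ∧ (symmDiff X0 X1).card ≤ Y0.card + Y1.card ∧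
      ((symmDiff X0 X1).card + (X0.card + X1.card)) % 2 = 0 ∧
      ((symmDiff X0 X1).card + (Y0.card + Y1.card)) % 2 = 0) ∧
    ¬ (X0.card + X1.card + (symmDiff X0 X1).card = 4 ∧ 1 ≤ (symmDiff X0 X1).card ∧
      Y0.card + Y1.card + (symmDiff X0 X1).card = 4) := by
  obtain ⟨b1, b2⟩ := data R hc L hL ht
  have c1 := b1 0
  have c2 := b1 1
  have c3 := b2 0
  have c4 := b2 1
  have hs := sigma_eq R hc L hL ht
  have hi := inc R hN L hL ht (symmDiff X0 X1)
  rw [hX0] at c1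
  rw [hX1] at c2
  rw [hY0] at c3
  rw [hY1] at c4
  rw [hX0, hX1, hY0, hY1] at hs
  rw [hX0, hX1, hY0, hY1] at hi
  refine ⟨c1, c2, c3, c4, hs, ⟨(card_symmDiff' X0 X1).1, ?_, (card_symmDiff' X0 X1).2.2.2, ?_⟩, ?_⟩
  · rw [hs]; exact (card_symmDiff' Y0 Y1).1
  · rw [hs]; exact (card_symmDiff' Y0 Y1).2.2.2
  · rintro ⟨h1, h2, h3⟩
    exact hi ⟨⟨rfl, card_pos.1 c1.1, card_pos.1 c2.1, card_pos.1 h2, h1⟩,
      ⟨hs.symm, card_pos.1 c3.1, card_pos.1 c4.1, card_pos.1 h2, h3⟩⟩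

theorem px_ne_qx (D : Fin 3 → Pointed) (i j : Fin 3) (t s : Fin 2) (h : i ≠ j) :
    px D i t ≠ qx D j s := by
  intro e
  have e1 := Sum.inl.inj e
  exact h (congrArg Sigma.fst e1)

theorem tri_ar (D : Fin 3 → Pointed) {K : Type} [DecidableEq K] (L : W D → W D → Finset K)
    (i j k : Fin 3) (t : Fin 2) (hj : j = i + 1) (hk : k = i - 1)
    (h : TightAt (glue D) L (ar D i t)) :
    Tri (L (ar D i t) (px D j t)) (L (ar D i t) (qx D k t)) (L (ar D i t) (ce D i)) := by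
  subst hj
  subst hk
  exact h _ _ _ (px_ne_qx D _ _ t t (f3c i).symm) (by simp [px]) (by simp [qx])
    ((nb_ar D _ _ _).2 (by simp)) ((nb_ar D _ _ _).2 (by simp)) ((nb_ar D _ _ _).2 (by simp))

theorem tri_ce (D : Fin 3 → Pointed) {K : Type} [DecidableEq K] (L : W D → W D → Finset K)
    (i : Fin 3) (h : TightAt (glue D) L (ce D i)) :
    Tri (L (ce D i) (ar D i 0)) (L (ce D i) (ar D i 1)) (L (ce D i) (hu D)) :=
  h _ _ _ (by simp) (by simp) (by simp)
    ((nb_ce D _ _).2 (by simp)) ((nb_ce D _ _).2 (by simp)) ((nb_ce D _ _).2 (by simp))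

theorem tri_hu (D : Fin 3 → Pointed) {K : Type} [DecidableEq K] (L : W D → W D → Finset K)
    (h : TightAt (glue D) L (hu D)) :
    Tri (L (hu D) (ce D 1)) (L (hu D) (ce D 2)) (L (hu D) (ce D 0)) :=
  h _ _ _ (by simp) (by simp) (by simp)
    ((nb_hu D _).2 (by simp)) ((nb_hu D _).2 (by simp)) ((nb_hu D _).2 (by simp))

/-- the pointed graph with the root edge `a_0 c_0` -/
def nx (D : Fin 3 → Pointed) : Pointed where
  V := W D
  G := glue D
  x := ar D 0 0
  y := ce D 0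
  p := fun t => if t = 0 then px D 1 0 else qx D 2 0
  q := fun t => if t = 0 then ar D 0 1 else hu D
  adj_x := by
    intro w
    rw [nb_ar]
    simp only [one_ne_zero, if_true, if_false]
    rfl
  adj_y := by
    intro w
    rw [nb_ce]
    simp only [one_ne_zero, if_true, if_false]
    tauto
  p_ne := by
    simp only [one_ne_zero, if_true, if_false]
    exact px_ne_qx D 1 2 0 0 (by decide)
  q_ne := by
    simp
  p_ne_y := by
    intro t
    fin_cases t <;> simp [px, qx]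
  q_ne_x := by
    intro t
    fin_cases t <;> simp

section main
variable (D : Fin 3 → Pointed) {K : Type} [DecidableEq K] (L : W D → W D → Finset K)

/-- the labels at `x` and at `y` in copy `i` -/
theorem copy_data (hc : ∀ i, IsCubic (D i).G) (hN : ∀ i, NT (D i).G) (hL : ∀ v w, L v w = L w v)
    (ht : ∀ v : W D, v ≠ ar D 0 0 → v ≠ ce D 0 → TightAt (glue D) L v) (i j k : Fin 3)
    (hj : j = i - 1) (hk : k = i + 1) :
    (1 ≤ (L (ar D j 0) (px D i 0)).card ∧ (L (ar D j 0) (px D i 0)).card ≤ 2) ∧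
    (1 ≤ (L (ar D j 1) (px D i 1)).card ∧ (L (ar D j 1) (px D i 1)).card ≤ 2) ∧
    (1 ≤ (L (ar D k 0) (qx D i 0)).card ∧ (L (ar D k 0) (qx D i 0)).card ≤ 2) ∧
    (1 ≤ (L (ar D k 1) (qx D i 1)).card ∧ (L (ar D k 1) (qx D i 1)).card ≤ 2) ∧
    symmDiff (L (ar D j 0) (px D i 0)) (L (ar D j 1) (px D i 1)) =
      symmDiff (L (ar D k 0) (qx D i 0)) (L (ar D k 1) (qx D i 1)) ∧
    ((symmDiff (L (ar D j 0) (px D i 0)) (L (ar D j 1) (px D i 1))).card ≤
        (L (ar D j 0) (px D i 0)).card + (L (ar D j 1) (px D i 1)).card ∧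
      (symmDiff (L (ar D j 0) (px D i 0)) (L (ar D j 1) (px D i 1))).card ≤
        (L (ar D k 0) (qx D i 0)).card + (L (ar D k 1) (qx D i 1)).card ∧
      ((symmDiff (L (ar D j 0) (px D i 0)) (L (ar D j 1) (px D i 1))).card +
        ((L (ar D j 0) (px D i 0)).card + (L (ar D j 1) (px D i 1)).card)) % 2 = 0 ∧
      ((symmDiff (L (ar D j 0) (px D i 0)) (L (ar D j 1) (px D i 1))).card +
        ((L (ar D k 0) (qx D i 0)).card + (L (ar D k 1) (qx D i 1)).card)) % 2 = 0) ∧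
    ¬ ((L (ar D j 0) (px D i 0)).card + (L (ar D j 1) (px D i 1)).card +
        (symmDiff (L (ar D j 0) (px D i 0)) (L (ar D j 1) (px D i 1))).card = 4 ∧
      1 ≤ (symmDiff (L (ar D j 0) (px D i 0)) (L (ar D j 1) (px D i 1))).card ∧
      (L (ar D k 0) (qx D i 0)).card + (L (ar D k 1) (qx D i 1)).card +
        (symmDiff (L (ar D j 0) (px D i 0)) (L (ar D j 1) (px D i 1))).card = 4) := by
  subst hj
  subst hk
  refine data2 (D i) (hc i) (hN i) (res D L i) (res_symm D L hL i) ?_ _ _ _ _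
    (res_x D L i 0) (res_x D L i 1) (res_y D L i 0) (res_y D L i 1)
  intro v hx hy
  exact res_tight D L i v hx hy (ht _ (by simp) (by simp))

end main

end Pool.Agent.N516.SC
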